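import Pool.Agent.H88.MCR.Stmts

/-!
# Board mcr, row ARN
-/

set_option autoImplicit false

namespace Pool.MCR

private theorem mem_arcs {L : Type} : ∀ (l : List L) (s t : Bool) (a b : L), (t, a, b) ∈ arcs s l →
    ∃ i : ℕ, l[i]? = some a ∧ l[i + 1]? = some b ∧ t = xor s (Nat.bodd i)
  | [], s, t, a, b, h => by simp [arcs] at h
  | [x], s, t, a, b, h => by simp [arcs] at h
  | x :: y :: tl, s, t, a, b, h => by
    rw [arcs, List.mem_cons] at h
    rcases h with h | h
    · simp only [Prod.mk.injEq] at h
      obtain ⟨h1, h2, h3⟩ := h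
      refine ⟨0, ?_, ?_, ?_⟩
      · simp [h2]
      · simp [h3]
      · simp [h1]
    · obtain ⟨i, h1, h2, h3⟩ := mem_arcs (y :: tl) (!s) t a b h
      refine ⟨i + 1, ?_, ?_, ?_⟩
      · rw [List.getElem?_cons_succ]
        exact h1
      · rw [List.getElem?_cons_succ]
        exact h2
      · rw [h3, Nat.bodd_succ]
        cases s <;> cases Nat.bodd i <;> rfl

private theorem idx {L : Type} {l : List L} (hl : l.Nodup) {i j : ℕ} {a : L}
    (hi : l[i]? = some a) (hj : l[j]? = some a) : i = j := by
  have h1 : i < l.length := by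
    by_contra h
    rw [List.getElem?_eq_none (by omega)] at hi
    simp at hi
  exact (List.getElem?_inj h1 hl).1 (hi.trans hj.symm)

theorem arn_thm : ARN_S := by
  intro L l s hl
  constructor
  · intro t a b h
    obtain ⟨i, h1, h2, -⟩ := mem_arcs l s t a b h
    refine ⟨List.mem_of_getElem? h1, List.mem_of_getElem? h2, ?_⟩
    rintro rfl
    have := idx hl h1 h2
    omega
  · intro t a b t' c d h h'
    obtain ⟨i, h1, h2, h3⟩ := mem_arcs l s t a b h
    obtain ⟨j, k1, k2, k3⟩ := mem_arcs l s t' c d h'
    have eac : a = c → t = t' ∧ b = d := by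
      rintro rfl
      have hij := idx hl h1 k1
      subst hij
      rw [h2] at k2
      exact ⟨h3.trans k3.symm, Option.some.inj k2⟩
    have ebd : b = d → t = t' ∧ a = c := by
      rintro rfl
      have hij : i = j := by
        have := idx hl h2 k2
        omega
      subst hij
      rw [h1] at k1
      exact ⟨h3.trans k3.symm, Option.some.inj k1⟩
    have ebc : b = c → t' = !t := by
      rintro rfl
      have hij : i + 1 = j := idx hl h2 k1
      subst hij
      rw [k3, h3, Nat.bodd_succ]
      cases s <;> cases Nat.bodd i <;> rfl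
    have ead : a = d → t = !t' := by
      rintro rfl
      have hij : i = j + 1 := idx hl h1 k2
      subst hij
      rw [k3, h3, Nat.bodd_succ]
      cases s <;> cases Nat.bodd j <;> rfl
    refine ⟨eac, ebd, ebc, ead, ?_⟩
    intro htt hne
    refine ⟨?_, ?_, ?_, ?_⟩
    · intro h
      exact hne ⟨h, (eac h).2⟩
    · intro h
      have := ead h
      rw [htt] at this
      cases t' <;> simp at this
    · intro h
      have := ebc h
      rw [htt] at this
      cases t' <;> simp at this
    · intro h
      exact hne ⟨(ebd h).2, h⟩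

end Pool.MCR
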