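import Pool.Agent.H88.MCR.Stmts

/-!
# Board mcr, row LOC
-/

set_option autoImplicit false

namespace Pool.MCR

private theorem lplt {L : Type} [LinearOrder L] (a b : L) (α β : ℤ) :
    lp a α < lp b β ↔ a < b ∨ (a = b ∧ α < β) := Prod.Lex.toLex_lt_toLex

theorem loc_thm : LOC_S := by
  intro L _
  refine ⟨?_, ?_, ?_, ?_, ?_, ?_, ?_⟩
  · intro a b α β hab h
    rcases lt_or_gt_of_ne hab with h1 | h1
    · simp only [Inter, Btw, Out, lplt, h1, not_lt_of_gt h1, h1.ne, h1.ne', lt_irrefl, true_and,
        false_and, and_false, and_true, true_or, false_or, or_false, or_true, not_false_eq_true]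
      omega
    · simp only [Inter, Btw, Out, lplt, h1, not_lt_of_gt h1, h1.ne, h1.ne', lt_irrefl, true_and,
        false_and, and_false, and_true, true_or, false_or, or_false, or_true, not_false_eq_true]
      omega
  · intro w b d ρ σ β δ h hρ
    rcases h with ⟨h1, h2⟩ | ⟨h1, h2, h3⟩ | ⟨h1, h2, h3⟩
    · have h3 := h2.trans h1
      simp only [Inter, Btw, Out, lplt, h1, h2, h3, not_lt_of_gt h1, not_lt_of_gt h2,
        not_lt_of_gt h3, h1.ne, h1.ne', h2.ne, h2.ne', h3.ne, h3.ne', lt_irrefl, true_and,
        false_and, and_false, and_true, true_or, false_or, or_false, or_true, not_false_eq_true]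
      omega
    · simp only [Inter, Btw, Out, lplt, h1, h2, h3, not_lt_of_gt h1, not_lt_of_gt h2,
        not_lt_of_gt h3, h1.ne, h1.ne', h2.ne, h2.ne', h3.ne, h3.ne', lt_irrefl, true_and,
        false_and, and_false, and_true, true_or, false_or, or_false, or_true, not_false_eq_true]
      omega
    · simp only [Inter, Btw, Out, lplt, h1, h2, h3, not_lt_of_gt h1, not_lt_of_gt h2,
        not_lt_of_gt h3, h1.ne, h1.ne', h2.ne, h2.ne', h3.ne, h3.ne', lt_irrefl, true_and,
        false_and, and_false, and_true, true_or, false_or, or_false, or_true, not_false_eq_true]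
      omega
  · intro w d ρ δ hd hρ
    rcases lt_or_gt_of_ne hd with h1 | h1
    · simp only [Inter, Btw, Out, lplt, h1, not_lt_of_gt h1, h1.ne, h1.ne', lt_irrefl, true_and,
        false_and, and_false, and_true, true_or, false_or, or_false, or_true, not_false_eq_true]
      omega
    · simp only [Inter, Btw, Out, lplt, h1, not_lt_of_gt h1, h1.ne, h1.ne', lt_irrefl, true_and,
        false_and, and_false, and_true, true_or, false_or, or_false, or_true, not_false_eq_true]
      omega
  · intro w b d ρ β h hρ
    rcases h with ⟨h1, h2⟩ | ⟨h1, h2, h3⟩ | ⟨h1, h2, h3⟩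
    · have h3 := h2.trans h1
      simp only [Inter, Btw, Out, lplt, h1, h2, h3, not_lt_of_gt h1, not_lt_of_gt h2,
        not_lt_of_gt h3, h1.ne, h1.ne', h2.ne, h2.ne', h3.ne, h3.ne', lt_irrefl, true_and,
        false_and, and_false, and_true, true_or, false_or, or_false, or_true, not_false_eq_true]
      omega
    · simp only [Inter, Btw, Out, lplt, h1, h2, h3, not_lt_of_gt h1, not_lt_of_gt h2,
        not_lt_of_gt h3, h1.ne, h1.ne', h2.ne, h2.ne', h3.ne, h3.ne', lt_irrefl, true_and,
        false_and, and_false, and_true, true_or, false_or, or_false, or_true, not_false_eq_true]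
      omega
    · simp only [Inter, Btw, Out, lplt, h1, h2, h3, not_lt_of_gt h1, not_lt_of_gt h2,
        not_lt_of_gt h3, h1.ne, h1.ne', h2.ne, h2.ne', h3.ne, h3.ne', lt_irrefl, true_and,
        false_and, and_false, and_true, true_or, false_or, or_false, or_true, not_false_eq_true]
      omega
  · intro w b ρ β hb hρ
    rcases lt_or_gt_of_ne hb with h1 | h1
    · simp only [Inter, Btw, Out, lplt, h1, not_lt_of_gt h1, h1.ne, h1.ne', lt_irrefl, true_and,
        false_and, and_false, and_true, true_or, false_or, or_false, or_true, not_false_eq_true]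
      omega
    · simp only [Inter, Btw, Out, lplt, h1, not_lt_of_gt h1, h1.ne, h1.ne', lt_irrefl, true_and,
        false_and, and_false, and_true, true_or, false_or, or_false, or_true, not_false_eq_true]
      omega
  · intro w b d h
    rcases h with ⟨h1, h2⟩ | ⟨h1, h2, h3⟩ | ⟨h1, h2, h3⟩
    · have h3 := h2.trans h1
      simp only [Inter, Btw, Out, lplt, h1, h2, h3, not_lt_of_gt h1, not_lt_of_gt h2,
        not_lt_of_gt h3, h1.ne, h1.ne', h2.ne, h2.ne', h3.ne, h3.ne', lt_irrefl, true_and,
        false_and, and_false, and_true, true_or, false_or, or_false, or_true, not_false_eq_true]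
      omega
    · simp only [Inter, Btw, Out, lplt, h1, h2, h3, not_lt_of_gt h1, not_lt_of_gt h2,
        not_lt_of_gt h3, h1.ne, h1.ne', h2.ne, h2.ne', h3.ne, h3.ne', lt_irrefl, true_and,
        false_and, and_false, and_true, true_or, false_or, or_false, or_true, not_false_eq_true]
      omega
    · simp only [Inter, Btw, Out, lplt, h1, h2, h3, not_lt_of_gt h1, not_lt_of_gt h2,
        not_lt_of_gt h3, h1.ne, h1.ne', h2.ne, h2.ne', h3.ne, h3.ne', lt_irrefl, true_and,
        false_and, and_false, and_true, true_or, false_or, or_false, or_true, not_false_eq_true]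
      omega
  · intro w c d α β γ δ hc hd
    rcases lt_or_gt_of_ne hc with h1 | h1 <;> rcases lt_or_gt_of_ne hd with h2 | h2 <;>
    · simp only [Inter, Btw, Out, lplt, h1, h2, not_lt_of_gt h1, not_lt_of_gt h2, h1.ne, h1.ne',
        h2.ne, h2.ne', lt_irrefl, true_and, false_and, and_false, and_true, true_or, false_or,
        or_false, or_true, not_false_eq_true, and_self, or_self]

end Pool.MCR
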