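import Pool.Agent.H88.MCR.Stmts2

/-!
# Board mcr, row MP2
-/

set_option autoImplicit false

namespace Pool.MCR

namespace MP2Aux

/-- Walks in the image graph starting at `φ a` come from walks in the graph. -/
theorem lift {W V : Type} (F : SimpleGraph W) (φ : W ↪ V) {x y : V}
    (w : (F.map φ).Walk x y) : ∀ (a : W) (hx : (SimpleGraph.Embedding.map φ F).toHom a = x),
    ∃ (b : W) (hy : (SimpleGraph.Embedding.map φ F).toHom b = y) (q : F.Walk a b),
      (q.map (SimpleGraph.Embedding.map φ F).toHom).copy hx hy = w := by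
  induction w with
  | nil =>
    intro a hx
    refine ⟨a, hx, SimpleGraph.Walk.nil, ?_⟩
    subst hx
    rfl
  | cons h w' ih =>
    intro a hx
    obtain ⟨a', z', hadj, ha', hz'⟩ := (SimpleGraph.map_adj φ F _ _).1 h
    have haa : a' = a := φ.injective (ha'.trans hx.symm)
    subst haa
    obtain ⟨b, hy, q, hq⟩ := ih z' hz'
    refine ⟨b, hy, SimpleGraph.Walk.cons hadj q, ?_⟩
    subst hx
    subst hy
    subst hz'
    subst hq
    rfl

/-- a cycle of the image graph comes from a cycle of the same length -/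
theorem cyc {W V : Type} (F : SimpleGraph W) (φ : W ↪ V) (v : V) (w : (F.map φ).Walk v v)
    (hw : w.IsCycle) : ∃ (a : W) (q : F.Walk a a), q.IsCycle ∧ q.length = w.length := by
  have hn : ¬ w.Nil := hw.not_nil
  obtain ⟨a, ha⟩ : ∃ a : W, φ a = v := by
    cases w with
    | nil => exact absurd SimpleGraph.Walk.Nil.nil hn
    | cons h w' =>
      obtain ⟨a', z', hadj, ha', hz'⟩ := (SimpleGraph.map_adj φ F _ _).1 h
      exact ⟨a', ha'⟩
  obtain ⟨b, hb, q, hq⟩ := lift F φ w a ha
  have hab : b = a := φ.injective (hb.trans ha.symm)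
  subst hab
  subst ha
  have h1 : (q.map (SimpleGraph.Embedding.map φ F).toHom) = w := hq
  have h2 := hw
  rw [← h1] at h2
  refine ⟨b, q, h2.of_map, ?_⟩
  rw [← h1]
  exact (SimpleGraph.Walk.length_map (SimpleGraph.Embedding.map φ F).toHom q).symm

end MP2Aux

theorem mp2_thm (hMPA : MPA_S) : MP2_S := by
  intro W V F φ h
  rcases h with h | ⟨e0, he0, h1, h2⟩
  · exact Or.inl (hMPA W V F φ h)
  · right
    refine ⟨e0.map φ, ?_, ?_, ?_⟩
    · induction e0 with
      | _ a b =>
        rw [Sym2.map_mk, SimpleGraph.mem_edgeSet, SimpleGraph.map_adj]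
        rw [SimpleGraph.mem_edgeSet] at he0
        exact ⟨a, b, he0, rfl, rfl⟩
    · have h3 := hMPA W V _ φ h1
      refine h3.anti ?_
      intro x y hxy
      rw [SimpleGraph.deleteEdges_adj] at hxy
      obtain ⟨hadj, hne⟩ := hxy
      obtain ⟨a, b, hab, rfl, rfl⟩ := (SimpleGraph.map_adj φ F _ _).1 hadj
      rw [SimpleGraph.map_adj]
      refine ⟨a, b, ?_, rfl, rfl⟩
      rw [SimpleGraph.deleteEdges_adj]
      refine ⟨hab, ?_⟩
      intro h4
      rw [Set.mem_singleton_iff] at h4
      apply hne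
      rw [Set.mem_singleton_iff, ← h4, Sym2.map_mk]
    · intro v c hc
      obtain ⟨a, q, hq, hl⟩ := MP2Aux.cyc F φ v c hc
      rw [← hl]
      exact h2 a q hq

end Pool.MCR
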